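import Pool.Agent.Work.MP_3892ce_caseB.Fam2
import Pool.Agent.Work.MP_3892ce_num.Seg

/-! # Melzak, case B: checkers for the coefficient sequences `C` and `T` (helper17)

Scales: lengths `10^4`, coefficients `10^5`; the certificate of a coefficient is a triple
`(r, t, q)`: radius (`10^4`), angle and square root (`10^9`) for the segment. -/

set_option autoImplicit false

open Real

namespace Pool.Agent.Work.MP_3892ce_caseB

open Pool.Agent.Work.MP_3892ce_static Pool.Agent.Work.MP_3892ce_num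

/-- checks `c / 10^5 ≤ 2 √(Wd (r / 10^4) (d / 10^4) k)` -/
def coOk (d k c : ℤ) (z : ℤ × ℤ × ℤ) : Bool :=
  decide (c ≤ 0) || decide (0 < z.1) && ((decide (z.1 = d) && decide (c * c * 2500000 ≤ 3141592653 * (z.1 * z.1))) ||
    (sgUok z.1 d z.2.1 z.2.2 &&
      decide (c * c * 2500000 + k * sgUv z.1 d z.2.1 z.2.2 ≤ 3141592653 * (z.1 * z.1))))

theorem coOk_spec {d c : ℤ} {k : ℕ} {z : ℤ × ℤ × ℤ} (h : coOk d k c z = true) :
    (c : ℝ) / 100000 ≤ 2 * √(Wd ((z.1 : ℝ) / 10000) ((d : ℝ) / 10000) k) := by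
  obtain ⟨r, t, q⟩ := z
  simp only [coOk, Bool.and_eq_true, Bool.or_eq_true, decide_eq_true_eq] at h ⊢
  rcases h with h0 | ⟨hr, h⟩
  · have h1 : (c : ℝ) ≤ 0 := by exact_mod_cast h0
    have h2 : (c : ℝ) / 100000 ≤ 0 := div_nonpos_of_nonpos_of_nonneg h1 (by norm_num)
    exact h2.trans (by positivity)
  have hr' : (0 : ℝ) < r := by exact_mod_cast hr
  have hpi : (3141592653 : ℝ) / 1000000000 ≤ π := by
    have := Real.pi_gt_d20
    norm_num at this ⊢
    linarith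
  have hsq : ∀ W : ℝ, ((c : ℝ) / 100000) ^ 2 / 4 ≤ W → (c : ℝ) / 100000 ≤ 2 * √W := by
    intro W hW
    have h1 : √(((c : ℝ) / 100000) ^ 2 / 4) ≤ √W := Real.sqrt_le_sqrt hW
    have h2 : √(((c : ℝ) / 100000) ^ 2 / 4) = |(c : ℝ) / 100000| / 2 := by
      rw [show ((c : ℝ) / 100000) ^ 2 / 4 = ((c : ℝ) / 100000 / 2) ^ 2 by ring, Real.sqrt_sq_eq_abs,
        abs_div]
      norm_num
    rw [h2] at h1
    have := le_abs_self ((c : ℝ) / 100000)
    linarith
  apply hsq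
  rcases h with ⟨hrd, h⟩ | ⟨hs, h⟩
  · subst hrd
    have h' : (c : ℝ) * c * 2500000 ≤ 3141592653 * (r * r) := by exact_mod_cast h
    have hseg : seg ((r : ℝ) / 10000) ((r : ℝ) / 10000) = 0 := by
      unfold seg
      rw [div_self (by positivity), arccos_one, sub_self, Real.sqrt_zero]
      ring
    unfold Wd
    rw [hseg, mul_zero, sub_zero]
    have h1 : (3141592653 : ℝ) / 1000000000 * ((r : ℝ) / 10000) ^ 2 ≤ π * ((r : ℝ) / 10000) ^ 2 :=
      mul_le_mul_of_nonneg_right hpi (by positivity)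
    refine le_trans ?_ h1
    rw [div_pow, div_pow]
    have : (c : ℝ) ^ 2 / 100000 ^ 2 / 4 = (c * c * 2500000) / 100000000000000000 := by ring
    rw [this]
    have h2 : (3141592653 : ℝ) / 1000000000 * ((r : ℝ) ^ 2 / 10000 ^ 2) =
        (3141592653 * (r * r)) / 100000000000000000 := by ring
    rw [h2]
    exact div_le_div_of_nonneg_right h' (by norm_num)
  · have h' : (c : ℝ) * c * 2500000 + k * (sgUv r d t q : ℝ) ≤ 3141592653 * (r * r) := by
      exact_mod_cast h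
    have hseg := seg_le_of hs
    have h3 : (k : ℝ) * seg ((r : ℝ) / 10000) ((d : ℝ) / 10000) ≤
        k * ((sgUv r d t q : ℝ) / 100000000000000000) :=
      mul_le_mul_of_nonneg_left hseg (by positivity)
    unfold Wd
    have h1 : (3141592653 : ℝ) / 1000000000 * ((r : ℝ) / 10000) ^ 2 ≤ π * ((r : ℝ) / 10000) ^ 2 :=
      mul_le_mul_of_nonneg_right hpi (by positivity)
    have h4 : ((c : ℝ) / 100000) ^ 2 / 4 + k * ((sgUv r d t q : ℝ) / 100000000000000000) ≤
        (3141592653 : ℝ) / 1000000000 * ((r : ℝ) / 10000) ^ 2 := by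
      have e1 : ((c : ℝ) / 100000) ^ 2 / 4 + k * ((sgUv r d t q : ℝ) / 100000000000000000) =
          ((c : ℝ) * c * 2500000 + k * (sgUv r d t q : ℝ)) / 100000000000000000 := by ring
      have e2 : (3141592653 : ℝ) / 1000000000 * ((r : ℝ) / 10000) ^ 2 =
          (3141592653 * (r * r)) / 100000000000000000 := by ring
      rw [e1, e2]
      exact div_le_div_of_nonneg_right h' (by norm_num)
    linarith

/-- checks `CA` -/
def caOk (w : ℤ) (C : List ℤ) (z : List (ℤ × ℤ × ℤ)) : Bool :=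
  ((List.range 6).all fun d => decide (5000 ≤ (z.getD d (0, 0, 0)).1) &&
    decide ((z.getD d (0, 0, 0)).1 ≤ w) && coOk 5000 d (C.getD d 0) (z.getD d (0, 0, 0))) &&
  ((List.range 5).all fun d => decide (C.getD (d + 1) 0 ≤ C.getD d 0))

theorem caOk_spec {w : ℤ} {C : List ℤ} {z : List (ℤ × ℤ × ℤ)} (h : caOk w C z = true) :
    CA ((w : ℝ) / 10000) (sq2 C) := by
  simp only [caOk, Bool.and_eq_true, List.all_eq_true, List.mem_range, decide_eq_true_eq] at h
  obtain ⟨h1, h2⟩ := h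
  refine ⟨?_, ?_⟩
  · intro d hd
    obtain ⟨⟨g1, g2⟩, g3⟩ := h1 d (by omega)
    have g1' : (5000 : ℝ) ≤ (z.getD d (0, 0, 0)).1 := by exact_mod_cast g1
    have g2' : ((z.getD d (0, 0, 0)).1 : ℝ) ≤ w := by exact_mod_cast g2
    refine ⟨((z.getD d (0, 0, 0)).1 : ℝ) / 10000, by linarith, by linarith, ?_⟩
    have g4 := coOk_spec g3
    have e : (((5000 : ℤ) : ℝ)) / 10000 = 1 / 2 := by norm_num
    rw [e] at g4
    exact g4
  · intro d hd
    have g : ((C.getD (d + 1) 0 : ℤ) : ℝ) ≤ (C.getD d 0 : ℤ) := by exact_mod_cast h2 d hd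
    exact div_le_div_of_nonneg_right g (by norm_num)

/-- checks `TB` -/
def tbOk (w : ℤ) (T : List ℤ) (z : List (ℤ × ℤ × ℤ)) : Bool :=
  ((List.range 7).all fun k => decide (10000 - w ≤ (z.getD k (0, 0, 0)).1) &&
    decide (0 < (z.getD k (0, 0, 0)).1) && decide ((z.getD k (0, 0, 0)).1 ≤ 5000) &&
    coOk (10000 - w) k (T.getD k 0) (z.getD k (0, 0, 0))) &&
  ((List.range 6).all fun k => decide (T.getD (k + 1) 0 ≤ T.getD k 0)) &&
  decide (0 ≤ T.getD 6 0)

theorem tbOk_spec {w : ℤ} {T : List ℤ} {z : List (ℤ × ℤ × ℤ)} (h : tbOk w T z = true) :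
    TB ((w : ℝ) / 10000) (sq2 T) := by
  simp only [tbOk, Bool.and_eq_true, List.all_eq_true, List.mem_range, decide_eq_true_eq] at h
  obtain ⟨⟨h1, h2⟩, h4⟩ := h
  have ew : (1 : ℝ) - (w : ℝ) / 10000 = ((10000 - w : ℤ) : ℝ) / 10000 := by push_cast; ring
  refine ⟨?_, ?_, ?_⟩
  · intro k hk
    obtain ⟨⟨⟨g1, g2⟩, g3⟩, g4⟩ := h1 k (by omega)
    have g1' : ((10000 - w : ℤ) : ℝ) ≤ (z.getD k (0, 0, 0)).1 := by exact_mod_cast g1
    have g2' : (0 : ℝ) < ((z.getD k (0, 0, 0)).1 : ℝ) := by exact_mod_cast g2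
    have g3' : ((z.getD k (0, 0, 0)).1 : ℝ) ≤ 5000 := by exact_mod_cast g3
    refine ⟨((z.getD k (0, 0, 0)).1 : ℝ) / 10000, ?_, by positivity, by linarith, ?_⟩
    · rw [ew]
      exact div_le_div_of_nonneg_right g1' (by norm_num)
    · rw [ew]
      exact coOk_spec g4
  · intro d hd
    have g : ((T.getD (d + 1) 0 : ℤ) : ℝ) ≤ (T.getD d 0 : ℤ) := by exact_mod_cast h2 d hd
    exact div_le_div_of_nonneg_right g (by norm_num)
  · have g : (0 : ℝ) ≤ (T.getD 6 0 : ℤ) := by exact_mod_cast h4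
    unfold sq2
    positivity

end Pool.Agent.Work.MP_3892ce_caseB
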