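import Pool.Agent.Work.MP_3892ce_caseB.CB
import Pool.Agent.Work.MP_3892ce_static.BRB1
import Pool.Agent.Work.MP_3892ce_static.BRB2
import Pool.Agent.Work.MP_3892ce_static.SIX
import Pool.Agent.Work.MP_3892ce_static.RAD6
import Pool.Agent.Work.MP_3892ce_str.Glue

/-! # Melzak, case B: from a certificate to the static bound (helper17)

`bOk J1 P c bfs` checks the data of a problem for the first (`J1 = true`) or the second sub-case:
six named facets in the order of decreasing area, root cell, families with their certificates. -/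

set_option autoImplicit false

open MeasureTheory Set

namespace Pool.Agent.Work.MP_3892ce_caseB

open Pool.Agent.Work.MP_3892ce_static Pool.Agent.Work.MP_3892ce_str

/-- a family with certificates: number of named facets (0, 3, 4, 5, 6), weight, coefficients -/
structure BF where
  m : ℕ
  w : ℤ
  C : List ℤ
  T : List ℤ
  cc : List (ℤ × ℤ × ℤ)
  tc : List (ℤ × ℤ × ℤ)

/-- bound for the number of named neighbours of the other facets -/
def outK (J1 : Bool) (m : ℕ) : ℕ := if J1 then (if m ≤ 3 then m else m - 1) else m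

/-- all pairs `i < j < n` -/
def prs (n : ℕ) (f : ℕ → ℕ → Bool) : Bool :=
  (List.range n).all fun j => (List.range j).all fun i => f i j

lemma prs_spec {n : ℕ} {f : ℕ → ℕ → Bool} (h : prs n f = true) {i j : ℕ} (hij : i < j)
    (hj : j < n) : f i j = true := by
  simp only [prs, List.all_eq_true, List.mem_range] at h
  exact h j hj i hij

/-- the prefix sums for all minimal sets of missing pairs -/
def pOk (J1 : Bool) (m : ℕ) (C V : List ℤ) : Bool :=
  match m with
  | 3 => vOk 3 C V [] 3 0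
  | 4 => if J1 then vOk 4 C V [] 4 0 else prs 4 fun i j => vOk 4 C V [(i, j)] 4 0
  | 5 => if J1 then prs 4 fun i j => vOk 5 C V [(i, 4), (j, 4)] 5 0
    else prs 4 fun i j => prs 5 fun i' j' => (i == i' && j == j') ||
      vOk 5 C V [(i, j), (i', j')] 5 0
  | 6 => if J1 then prs 4 fun i j => (List.range 4).all fun k =>
      vOk 6 C V [(i, 4), (j, 4), (k, 5)] 6 0
    else prs 4 fun i j => prs 5 fun i' j' => (i == i' && j == j') ||
      prs 6 fun i'' j'' => (i'' == i && j'' == j) || (i'' == i' && j'' == j') ||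
        vOk 6 C V [(i, j), (i', j'), (i'', j'')] 6 0
  | _ => false

/-- checks the family `g` -/
def bfOk (J1 : Bool) (g : Eng.Fam) (f : BF) : Bool :=
  match f.m with
  | 0 => ((List.range 6).all fun i => decide (g.c.getD i 0 ≤ 177245)) && decide (g.t ≤ 177245)
  | _ => decide (f.w ≤ 10000) && caOk f.w f.C f.cc && tbOk f.w f.T f.tc && pOk J1 f.m f.C g.c &&
      ((List.range 6).all fun i => decide (i < f.m) ||
        decide (g.c.getD i 0 ≤ f.T.getD (outK J1 f.m) 0)) &&
      decide (g.t ≤ f.T.getD (outK J1 f.m) 0)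

/-- bounds for the ordered roots of the relative areas -/
def hiB : List ℤ := [708, 708, 578, 500, 448, 409]

def bOk (J1 : Bool) (P : Eng.Prob) (c : Eng.Cell) (bfs : List BF) : Bool :=
  P.pos.isEmpty && decide (0 ≤ P.S0) && decide (0 ≤ P.K2) &&
  decide (P.K2 * P.K2 * P.K2 ≤ 25300 * (100000000 * 100000000 * 100000000)) &&
  decide (283585600000000000000000000000000000000000000000000 ≤
    36 * 314159265358979323846 * (P.K2 * P.K2 * P.K2)) &&
  decide (c.lo.length = 6) && decide (c.hi.length = 6) && (c.lo.all fun h => decide (h = 0)) &&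
  ((List.range 6).all fun i => decide (hiB.getD i 0 ≤ c.hi.getD i 0)) &&
  decide (378 ≤ c.H) && c.sb.isEmpty && decide (0 < c.Y1) && decide (c.Y1 ≤ 35) &&
  decide (1000 ≤ c.Y2) && decide (c.T1 ≤ 0) && decide (1000000 ≤ c.T2) &&
  ((List.range 6).all fun i => (P.dn.getD i []).all fun j => decide (i ≤ j) && decide (j < 6)) &&
  ((List.range 6).all fun i => (P.up.getD i []).all fun j => decide (j ≤ i)) &&
  decide (P.fams.length = bfs.length) &&
  ((P.fams.zip bfs).all fun p => decide (p.1.c.length = 6) && decide (p.1.m.length = 0) &&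
    bfOk J1 p.1 p.2)

/-- hypothesis of the first sub-case -/
def HJ1 {ι : Type} [DecidableEq ι] (n : ι → E 3) (b : ι → ℝ) (r : Fin 6 → ι) : Prop :=
  (∀ i j : Fin 6, i < j → j < 4 → 0 < len n b (r i) (r j)) ∧
    (∃ i j : Fin 6, i < j ∧ j < 4 ∧ ¬ 0 < len n b (r i) (r 4) ∧ ¬ 0 < len n b (r j) (r 4))

/-- hypothesis of the second sub-case -/
def HJ2 {ι : Type} [DecidableEq ι] (n : ι → E 3) (b : ι → ℝ) (r : Fin 6 → ι) : Prop :=
  ∃ i j i' j' : Fin 6, i < j ∧ j < 4 ∧ ¬ 0 < len n b (r i) (r j) ∧ i' < j' ∧ j' < 5 ∧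
    ¬ 0 < len n b (r i') (r j') ∧ ¬ (i = i' ∧ j = j')

section
variable {ι : Type} [Fintype ι] [DecidableEq ι] {n : ι → E 3} {b : ι → ℝ}
  {U : ι → (E 2 →ₗᵢ[ℝ] E 3)}

lemma mem_tp {m : ℕ} {a : Fin 6} : a ∈ tp m ↔ a.val < m := by simp [tp]

lemma dg_le_m (s : Fin 6 → ι) {m : ℕ} (hm : m ≤ 6) (i : ι) : BRB.dg n b s (tp m) i ≤ m := by
  refine (Finset.card_filter_le _ _).trans ?_
  have h6 : ∀ k ≤ 6, (tp k).card = k := by
    intro k hk
    interval_cases k <;> decide
  exact (h6 m hm).le

/-- the four largest pairwise adjacent: another facet has at most three neighbours among them -/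
lemma out3 (hI : Irr n b) {s : Fin 6 → ι}
    (hK4 : ∀ i j : Fin 6, i < j → j < 4 → 0 < len n b (s i) (s j)) (i : ι) :
    ∃ a : Fin 6, a.val < 4 ∧ ¬ 0 < len n b i (s a) := by
  by_contra hcon
  push Not at hcon
  exact BRB.noK5 blk_RAD5 blk_ADJ hI (hK4 0 1 (by decide) (by decide))
    (hK4 0 2 (by decide) (by decide)) (hK4 0 3 (by decide) (by decide))
    (hK4 1 2 (by decide) (by decide)) (hK4 1 3 (by decide) (by decide))
    (hK4 2 3 (by decide) (by decide))
    (hcon 0 (by decide)) (hcon 1 (by decide)) (hcon 2 (by decide)) (hcon 3 (by decide))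

lemma outK_J1 (hI : Irr n b) {s : Fin 6 → ι}
    (hK4 : ∀ i j : Fin 6, i < j → j < 4 → 0 < len n b (s i) (s j)) {m : ℕ} (hm4 : 4 ≤ m)
    (hm : m ≤ 6) (i : ι) : BRB.dg n b s (tp m) i ≤ m - 1 := by
  obtain ⟨a, ha, hl⟩ := out3 hI hK4 i
  have h1 : ((tp m).filter fun c => 0 < len n b i (s c)) ⊆ (tp m).erase a := by
    intro c hc
    rw [Finset.mem_filter] at hc
    refine Finset.mem_erase.2 ⟨?_, hc.1⟩
    rintro rfl
    exact hl hc.2
  refine (Finset.card_le_card h1).trans ?_
  rw [Finset.card_erase_of_mem (mem_tp.2 (by omega))]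
  have h6 : ∀ k ≤ 6, (tp k).card = k := by
    intro k hk
    interval_cases k <;> decide
  rw [h6 m hm]

/-- number of named neighbours of the other facets -/
lemma outK_spec (hI : Irr n b) {s : Fin 6 → ι} {J1 : Bool}
    (hJ : if J1 then HJ1 n b s else HJ2 n b s) {m : ℕ} (hm : m ≤ 6) (i : ι) :
    BRB.dg n b s (tp m) i ≤ outK J1 m := by
  unfold outK
  cases J1 with
  | false =>
    rw [if_neg (by simp)]
    exact dg_le_m s hm i
  | true =>
    rw [if_pos rfl] at hJ ⊢
    split_ifs with h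
    · exact dg_le_m s hm i
    · exact outK_J1 hI hJ.1 (by omega) hm i

/-- the missing pairs -/
lemma pOk_spec (hI : Irr n b) {s : Fin 6 → ι} (hs : Function.Injective s) {J1 : Bool}
    (hJ : if J1 then HJ1 n b s else HJ2 n b s) {m : ℕ} {C V : List ℤ}
    (h : pOk J1 m C V = true) : m ≤ 6 ∧ ∃ P : List (ℕ × ℕ), P.Nodup ∧ (∀ p ∈ P, p.1 < p.2 ∧
      p.2 < m ∧ ∀ (i j : Fin 6), i.val = p.1 → j.val = p.2 → ¬ 0 < len n b (s i) (s j)) ∧
      vOk m C V P m 0 = true := by
  have hmiss : ∀ {a c : Fin 6}, ¬ 0 < len n b (s a) (s c) →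
      ∀ (i j : Fin 6), i.val = a.val → j.val = c.val → ¬ 0 < len n b (s i) (s j) := by
    intro a c hac i j hi hj
    rw [Fin.ext hi, Fin.ext hj]
    exact hac
  unfold pOk at h
  split at h
  · exact ⟨by norm_num, [], List.nodup_nil, by simp, h⟩
  · cases J1 with
    | true =>
      rw [if_pos rfl] at h
      exact ⟨by norm_num, [], List.nodup_nil, by simp, h⟩
    | false =>
      rw [if_neg (by simp)] at h hJ
      obtain ⟨i, j, i', j', hij, hj4, hl, hij', hj5, hl', hne⟩ := hJ
      refine ⟨by norm_num, [(i.val, j.val)], List.nodup_singleton _, ?_,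
        prs_spec h (Fin.lt_def.1 hij) (Fin.lt_def.1 hj4)⟩
      intro p hp
      rw [List.mem_singleton] at hp
      subst hp
      exact ⟨Fin.lt_def.1 hij, Fin.lt_def.1 hj4, hmiss hl⟩
  · cases J1 with
    | true =>
      rw [if_pos rfl] at h hJ
      obtain ⟨_, i, j, hij, hj4, hl, hl'⟩ := hJ
      have e1 : i.val < j.val := Fin.lt_def.1 hij
      have e2 : j.val < 4 := Fin.lt_def.1 hj4
      refine ⟨by norm_num, [(i.val, 4), (j.val, 4)], ?_, ?_, prs_spec h e1 e2⟩
      · simp only [List.nodup_cons, List.mem_singleton, Prod.mk.injEq, List.not_mem_nil,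
          not_false_eq_true, List.nodup_nil, and_self, and_true]
        omega
      · intro p hp
        rw [List.mem_cons, List.mem_singleton] at hp
        rcases hp with rfl | rfl
        · exact ⟨by show i.val < 4; omega, by norm_num, hmiss (c := 4) hl⟩
        · exact ⟨e2, by norm_num, hmiss (c := 4) hl'⟩
    | false =>
      rw [if_neg (by simp)] at h hJ
      obtain ⟨i, j, i', j', hij, hj4, hl, hij', hj5, hl', hne⟩ := hJ
      have e1 : i.val < j.val := Fin.lt_def.1 hij
      have e2 : j.val < 4 := Fin.lt_def.1 hj4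
      have e3 : i'.val < j'.val := Fin.lt_def.1 hij'
      have e4 : j'.val < 5 := Fin.lt_def.1 hj5
      have e5 : ¬ (i.val = i'.val ∧ j.val = j'.val) := fun g => hne ⟨Fin.ext g.1, Fin.ext g.2⟩
      have h2 := prs_spec (prs_spec h e1 e2) e3 e4
      rw [Bool.or_eq_true, Bool.and_eq_true, beq_iff_eq, beq_iff_eq] at h2
      refine ⟨by norm_num, [(i.val, j.val), (i'.val, j'.val)], ?_, ?_, h2.resolve_left e5⟩
      · simp only [List.nodup_cons, List.mem_singleton, Prod.mk.injEq, List.not_mem_nil,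
          not_false_eq_true, List.nodup_nil, and_self, and_true]
        exact e5
      · intro p hp
        rw [List.mem_cons, List.mem_singleton] at hp
        rcases hp with rfl | rfl
        · exact ⟨e1, by show j.val < 5; omega, hmiss hl⟩
        · exact ⟨e3, e4, hmiss hl'⟩
  · cases J1 with
    | true =>
      rw [if_pos rfl] at h hJ
      obtain ⟨hK4, i, j, hij, hj4, hl, hl'⟩ := hJ
      have e1 : i.val < j.val := Fin.lt_def.1 hij
      have e2 : j.val < 4 := Fin.lt_def.1 hj4
      obtain ⟨k, hk, hkl⟩ := out3 hI hK4 (s 5)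
      have h2 := prs_spec h e1 e2
      rw [List.all_eq_true] at h2
      refine ⟨le_rfl, [(i.val, 4), (j.val, 4), (k.val, 5)], ?_, ?_,
        h2 k.val (List.mem_range.2 hk)⟩
      · simp only [List.nodup_cons, List.mem_cons, Prod.mk.injEq, List.not_mem_nil, or_false,
          not_false_eq_true, List.nodup_nil, and_true]
        omega
      · intro p hp
        rw [List.mem_cons, List.mem_cons, List.mem_singleton] at hp
        rcases hp with rfl | rfl | rfl
        · exact ⟨by show i.val < 4; omega, by norm_num, hmiss (c := 4) hl⟩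
        · exact ⟨e2, by norm_num, hmiss (c := 4) hl'⟩
        · refine ⟨by show k.val < 5; omega, by norm_num, hmiss (c := 5) ?_⟩
          rw [BRB.len_symm]
          exact hkl
    | false =>
      rw [if_neg (by simp)] at h hJ
      obtain ⟨i, j, i', j', hij, hj4, hl, hij', hj5, hl', hne⟩ := hJ
      obtain ⟨i'', j'', hij'', hl'', hne1, hne2⟩ :=
        BRB2.third blk_ADJ blk_RAD5 blk_RAD6 hI hs hij hij'
      have e1 : i.val < j.val := Fin.lt_def.1 hij
      have e2 : j.val < 4 := Fin.lt_def.1 hj4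
      have e3 : i'.val < j'.val := Fin.lt_def.1 hij'
      have e4 : j'.val < 5 := Fin.lt_def.1 hj5
      have e5 : ¬ (i.val = i'.val ∧ j.val = j'.val) := fun g => hne ⟨Fin.ext g.1, Fin.ext g.2⟩
      have e6 : i''.val < j''.val := Fin.lt_def.1 hij''
      have e7 : ¬ (i''.val = i.val ∧ j''.val = j.val) := fun g => hne1 ⟨Fin.ext g.1, Fin.ext g.2⟩
      have e8 : ¬ (i''.val = i'.val ∧ j''.val = j'.val) :=
        fun g => hne2 ⟨Fin.ext g.1, Fin.ext g.2⟩
      have h2 := prs_spec (prs_spec h e1 e2) e3 e4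
      rw [Bool.or_eq_true, Bool.and_eq_true, beq_iff_eq, beq_iff_eq] at h2
      have h3 := prs_spec (h2.resolve_left e5) e6 j''.isLt
      rw [Bool.or_eq_true, Bool.or_eq_true, Bool.and_eq_true, Bool.and_eq_true, beq_iff_eq,
        beq_iff_eq, beq_iff_eq, beq_iff_eq] at h3
      refine ⟨le_rfl, [(i.val, j.val), (i'.val, j'.val), (i''.val, j''.val)], ?_, ?_,
        h3.resolve_left (fun g => g.elim e7 e8)⟩
      · simp only [List.nodup_cons, List.mem_cons, Prod.mk.injEq, List.not_mem_nil, or_false,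
          not_false_eq_true, List.nodup_nil, and_true]
        omega
      · intro p hp
        rw [List.mem_cons, List.mem_cons, List.mem_singleton] at hp
        rcases hp with rfl | rfl | rfl
        · exact ⟨e1, j.isLt, hmiss hl⟩
        · exact ⟨e3, j'.isLt, hmiss hl'⟩
        · exact ⟨e6, j''.isLt, hmiss hl''⟩
  · exact absurd h (by simp)

/-- root of the relative area -/
noncomputable def xa (n : ι → E 3) (b : ι → ℝ) (U : ι → (E 2 →ₗᵢ[ℝ] E 3)) (s : Fin 6 → ι) (i : ℕ) :
    ℝ := if h : i < 6 then √(al n b U (s ⟨i, h⟩)) else 0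

/-- the sum over the other facets -/
noncomputable def xr (n : ι → E 3) (b : ι → ℝ) (U : ι → (E 2 →ₗᵢ[ℝ] E 3)) (s : Fin 6 → ι) : ℝ :=
  ∑ a : {a : ι // a ∉ Set.range s}, √(al n b U a.1)

omit [DecidableEq ι] in
lemma xa_nonneg (s : Fin 6 → ι) (i : ℕ) : 0 ≤ xa n b U s i := by
  unfold xa; split_ifs
  · exact Real.sqrt_nonneg _
  · exact le_rfl

lemma xr_nonneg (s : Fin 6 → ι) : 0 ≤ xr n b U s :=
  Finset.sum_nonneg fun _ _ => Real.sqrt_nonneg _

lemma rest_eq (hU : ∀ i, Frame (n i) (U i)) (hI : Irr n b) (s : Fin 6 → ι) :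
    rest n b U s = xr n b U s * √(SS n b U) := by
  classical
  unfold rest xr
  rw [Finset.sum_mul]
  have h1 : Finset.univ.filter (fun i => i ∉ Finset.univ.image s) =
      Finset.univ.filter (fun i => i ∉ Set.range s) := by
    ext i; simp
  rw [h1, Finset.sum_subtype (Finset.univ.filter (fun i => i ∉ Set.range s))
    (p := fun a => a ∉ Set.range s) (fun x => by simp)]
  exact Finset.sum_congr rfl fun a _ => sqrt_area hU hI a.1

/-- the inequality of a family -/
lemma fam_ineq (hU : ∀ i, Frame (n i) (U i)) (hI : Irr n b) {s : Fin 6 → ι} (hs : Six n b U s)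
    {J1 : Bool} (hJ : if J1 then HJ1 n b s else HJ2 n b s) {g : Eng.Fam} {f : BF}
    (hf : bfOk J1 g f = true) :
    (g.c.getD 0 0 : ℝ) * xa n b U s 0 + (g.c.getD 1 0 : ℝ) * xa n b U s 1 +
      (g.c.getD 2 0 : ℝ) * xa n b U s 2 + (g.c.getD 3 0 : ℝ) * xa n b U s 3 +
      (g.c.getD 4 0 : ℝ) * xa n b U s 4 + (g.c.getD 5 0 : ℝ) * xa n b U s 5 +
      (g.t : ℝ) * xr n b U s ≤ 100000 * (L n b / √(SS n b U)) := by
  have hS := SS_pos hU hI
  have hS' : 0 < √(SS n b U) := Real.sqrt_pos.2 hS
  have e0 : ra n b U (s 0) = xa n b U s 0 * √(SS n b U) := sqrt_area hU hI _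
  have e1 : ra n b U (s 1) = xa n b U s 1 * √(SS n b U) := sqrt_area hU hI _
  have e2 : ra n b U (s 2) = xa n b U s 2 * √(SS n b U) := sqrt_area hU hI _
  have e3 : ra n b U (s 3) = xa n b U s 3 * √(SS n b U) := sqrt_area hU hI _
  have e4 : ra n b U (s 4) = xa n b U s 4 * √(SS n b U) := sqrt_area hU hI _
  have e5 : ra n b U (s 5) = xa n b U s 5 * √(SS n b U) := sqrt_area hU hI _
  have er := rest_eq hU hI s
  have g0 := xa_nonneg (n := n) (b := b) (U := U) s 0
  have g1 := xa_nonneg (n := n) (b := b) (U := U) s 1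
  have g2 := xa_nonneg (n := n) (b := b) (U := U) s 2
  have g3 := xa_nonneg (n := n) (b := b) (U := U) s 3
  have g4 := xa_nonneg (n := n) (b := b) (U := U) s 4
  have g5 := xa_nonneg (n := n) (b := b) (U := U) s 5
  have gr := xr_nonneg (n := n) (b := b) (U := U) s
  have key : ∀ A : ℝ, A * √(SS n b U) ≤ L n b → 100000 * A ≤ 100000 * (L n b / √(SS n b U)) := by
    intro A hA
    have : A ≤ L n b / √(SS n b U) := by rw [le_div_iff₀ hS']; exact hA
    linarith
  unfold bfOk at hf
  split at hf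
  · simp only [Bool.and_eq_true, List.all_eq_true, List.mem_range, decide_eq_true_eq] at hf
    obtain ⟨hf1, hf2⟩ := hf
    have h0 := (blk_BRB0 Closed.TWO ι n b U hU hI s hs).1
    rw [e0, e1, e2, e3, e4, e5, er] at h0
    have hpi : (177245 : ℝ) / 100000 ≤ √Real.pi := by
      apply Real.le_sqrt_of_sq_le
      have := Real.pi_gt_d20
      norm_num at this ⊢
      linarith
    have h1 := key (√Real.pi * (xa n b U s 0 + xa n b U s 1 + xa n b U s 2 + xa n b U s 3 +
      xa n b U s 4 + xa n b U s 5 + xr n b U s)) (le_trans (le_of_eq (by ring)) h0)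
    have h2 := mul_le_mul_of_nonneg_right hpi (by positivity : 0 ≤ xa n b U s 0 + xa n b U s 1 +
      xa n b U s 2 + xa n b U s 3 + xa n b U s 4 + xa n b U s 5 + xr n b U s)
    have hc : ∀ i < 6, (g.c.getD i 0 : ℝ) * xa n b U s i ≤ 177245 * xa n b U s i := by
      intro i hi
      apply mul_le_mul_of_nonneg_right _ (xa_nonneg s i)
      exact_mod_cast hf1 i hi
    have ht : (g.t : ℝ) * xr n b U s ≤ 177245 * xr n b U s := by
      apply mul_le_mul_of_nonneg_right _ gr
      exact_mod_cast hf2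
    have := hc 0 (by norm_num)
    have := hc 1 (by norm_num)
    have := hc 2 (by norm_num)
    have := hc 3 (by norm_num)
    have := hc 4 (by norm_num)
    have := hc 5 (by norm_num)
    linarith
  · simp only [Bool.and_eq_true, Bool.or_eq_true, List.all_eq_true, List.mem_range,
      decide_eq_true_eq] at hf
    obtain ⟨⟨⟨⟨⟨f1, f2⟩, f3⟩, f4⟩, f5⟩, f6⟩ := hf
    have hw : (f.w : ℝ) / 10000 ≤ 1 := by
      have : (f.w : ℝ) ≤ 10000 := by exact_mod_cast f1
      rw [div_le_one (by norm_num)]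
      exact this
    obtain ⟨hm, P, p1, p2, p3⟩ := pOk_spec hI hs.1 hJ f4
    have hK : ∀ i, (∀ a ∈ tp f.m, i ≠ s a) → BRB.dg n b s (tp f.m) i ≤ outK J1 f.m :=
      fun i _ => outK_spec hI hJ hm i
    have hK6 : outK J1 f.m ≤ 6 := by
      unfold outK
      split_ifs <;> omega
    have h1 := famV Closed.TWO hU hI hs hw (caOk_spec f2) (tbOk_spec f3) hm hK6 hK p1 p2 p3
    have hx : ∀ a < 6, ∀ X : ℝ, 0 ≤ X → (g.c.getD a 0 : ℝ) * X ≤
        100000 * ((if a < f.m then sq2 g.c a else sq2 f.T (outK J1 f.m)) * X) := by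
      intro a ha X hX
      rw [← mul_assoc]
      apply mul_le_mul_of_nonneg_right _ hX
      split_ifs with h
      · unfold sq2
        linarith
      · have h2 : (g.c.getD a 0 : ℝ) ≤ (f.T.getD (outK J1 f.m) 0 : ℤ) := by
          exact_mod_cast (f5 a ha).resolve_left h
        unfold sq2
        linarith
    have ht : (g.t : ℝ) * xr n b U s ≤ 100000 * (sq2 f.T (outK J1 f.m) * xr n b U s) := by
      rw [← mul_assoc]
      apply mul_le_mul_of_nonneg_right _ gr
      have h2 : (g.t : ℝ) ≤ (f.T.getD (outK J1 f.m) 0 : ℤ) := by exact_mod_cast f6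
      unfold sq2
      linarith
    rw [e0, e1, e2, e3, e4, e5, er] at h1
    have h2 := key _ (le_trans (le_of_eq (by ring)) h1 :
      ((if 0 < f.m then sq2 g.c 0 else sq2 f.T (outK J1 f.m)) * xa n b U s 0 +
      (if 1 < f.m then sq2 g.c 1 else sq2 f.T (outK J1 f.m)) * xa n b U s 1 +
      (if 2 < f.m then sq2 g.c 2 else sq2 f.T (outK J1 f.m)) * xa n b U s 2 +
      (if 3 < f.m then sq2 g.c 3 else sq2 f.T (outK J1 f.m)) * xa n b U s 3 +
      (if 4 < f.m then sq2 g.c 4 else sq2 f.T (outK J1 f.m)) * xa n b U s 4 +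
      (if 5 < f.m then sq2 g.c 5 else sq2 f.T (outK J1 f.m)) * xa n b U s 5 +
      sq2 f.T (outK J1 f.m) * xr n b U s) * √(SS n b U) ≤ L n b)
    refine le_trans ?_ h2
    have k0 := hx 0 (by norm_num) _ g0
    have k1 := hx 1 (by norm_num) _ g1
    have k2 := hx 2 (by norm_num) _ g2
    have k3 := hx 3 (by norm_num) _ g3
    have k4 := hx 4 (by norm_num) _ g4
    have k5 := hx 5 (by norm_num) _ g5
    linarith only [k0, k1, k2, k3, k4, k5, ht]

lemma mem_zip_of_mem {α β : Type} : ∀ (l : List α) (l' : List β), l.length = l'.length → ∀ a ∈ l,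
    ∃ b ∈ l', (a, b) ∈ l.zip l' := by
  intro l
  induction l with
  | nil => intro l' _ a ha; simp at ha
  | cons x l ih =>
    intro l' h a ha
    cases l' with
    | nil => simp at h
    | cons y l' =>
      rw [List.zip_cons_cons]
      rcases List.mem_cons.1 ha with rfl | ha
      · exact ⟨y, List.mem_cons_self, List.mem_cons_self⟩
      · obtain ⟨b, hb, hab⟩ := ih l' (by simpa using h) a ha
        exact ⟨b, List.mem_cons_of_mem _ hb, List.mem_cons_of_mem _ hab⟩

/-- the `k + 1`-st largest relative area is at most `1 / (k + 1)` -/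
lemma al_top (hU : ∀ i, Frame (n i) (U i)) (hI : Irr n b) {s : Fin 6 → ι} (hs : Six n b U s)
    (k : Fin 6) : al n b U (s k) ≤ 1 / ((k : ℕ) + 1 : ℝ) := by
  classical
  have hS := SS_pos hU hI
  have hk : (0 : ℝ) < (k : ℕ) + 1 := by positivity
  rw [le_div_iff₀ hk]
  have h1 : ∑ i ∈ (Finset.Iic k).image s, al n b U i ≤ ∑ i, al n b U i :=
    Finset.sum_le_sum_of_subset_of_nonneg (Finset.subset_univ _) fun i _ _ =>
      (al_pos hU hI i).le
  rw [sum_al hU hI, Finset.sum_image (fun a _ c _ h => hs.1 h)] at h1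
  have h2 : ∑ _i ∈ Finset.Iic k, al n b U (s k) ≤ ∑ i ∈ Finset.Iic k, al n b U (s i) := by
    apply Finset.sum_le_sum
    intro i hi
    exact div_le_div_of_nonneg_right (hs.2 i k (Finset.mem_Iic.1 hi)) hS.le
  rw [Finset.sum_const, Fin.card_Iic, nsmul_eq_mul] at h2
  push_cast at h2
  linarith

/-- a facet which is not among the six largest -/
lemma al_other (hU : ∀ i, Frame (n i) (U i)) (hI : Irr n b) {s : Fin 6 → ι} (hs : Six n b U s)
    {a : ι} (ha : a ∉ Set.range s) (hle : ∀ i, al n b U a ≤ al n b U (s i)) :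
    al n b U a ≤ 1 / 7 := by
  classical
  have h1 : ∑ i ∈ insert a (Finset.univ.image s), al n b U i ≤ ∑ i, al n b U i :=
    Finset.sum_le_sum_of_subset_of_nonneg (Finset.subset_univ _) fun i _ _ =>
      (al_pos hU hI i).le
  rw [sum_al hU hI, Finset.sum_insert (by simpa using ha),
    Finset.sum_image (fun a _ c _ h => hs.1 h), Fin.sum_univ_six] at h1
  have := hle 0
  have := hle 1
  have := hle 2
  have := hle 3
  have := hle 4
  have := hle 5
  linarith

/-- case B from a certificate -/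
theorem caseB {J1 : Bool} {P : Eng.Prob} {c : Eng.Cell} {tr : Eng.Tree} {bfs : List BF}
    (hch : Eng.check P c tr = true) (hb : bOk J1 P c bfs = true)
    (hU : ∀ i, Frame (n i) (U i)) (hI : Irr n b) {s : Fin 6 → ι} (hs : Six n b U s)
    (hrest : ∀ k, k ∉ Finset.univ.image s → ∀ i,
      area (HP n b) (n k) (U k) (b k) ≤ area (HP n b) (n (s i)) (U (s i)) (b (s i)))
    (hJ : if J1 then HJ1 n b s else HJ2 n b s) :
    1684 * (volume (HP n b)).toReal ≤ L n b ^ 3 := by
  simp only [bOk, Bool.and_eq_true, decide_eq_true_eq, List.isEmpty_iff, List.all_eq_true,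
    List.mem_range] at hb
  obtain ⟨⟨⟨⟨⟨⟨⟨⟨⟨⟨⟨⟨⟨⟨⟨⟨⟨⟨⟨b1, b2⟩, b3⟩, b4⟩, b5⟩, b6⟩, b7⟩, b8⟩, b9⟩, b10⟩, b11⟩, b12⟩, b13⟩, b14⟩,
    b15⟩, b16⟩, b17⟩, b18⟩, b19⟩, b20⟩ := hb
  have hS := SS_pos hU hI
  have hal0 := al_pos hU hI
  have hx : ∀ i : Fin 6, xa n b U s i = √(al n b U (s i)) := by
    intro i
    unfold xa
    rw [dif_pos i.isLt]
  have hmono : ∀ i j : ℕ, i ≤ j → j < 6 → xa n b U s j ≤ xa n b U s i := by
    intro i j hij hj
    have hi : i < 6 := by omega
    unfold xa
    rw [dif_pos hj, dif_pos hi]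
    apply Real.sqrt_le_sqrt
    exact div_le_div_of_nonneg_right (hs.2 ⟨i, hi⟩ ⟨j, hj⟩ hij) hS.le
  have hle : ∀ a, a ∉ Set.range s → ∀ i, al n b U a ≤ al n b U (s i) := by
    intro a ha i
    exact div_le_div_of_nonneg_right (hrest a (by simpa using ha) i) hS.le
  have hsum1 : ∑ i ∈ (Finset.range 6).filter (fun i => i ∈ P.gr), xa n b U s i ^ 2 +
      ∑ a : {a : ι // a ∉ Set.range s}, al n b U a.1 ≤ 1 := by
    have h1 : ∑ i ∈ (Finset.range 6).filter (fun i => i ∈ P.gr), xa n b U s i ^ 2 ≤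
        ∑ i ∈ Finset.range 6, xa n b U s i ^ 2 :=
      Finset.sum_le_sum_of_subset_of_nonneg (Finset.filter_subset _ _) fun _ _ _ => sq_nonneg _
    have h2 := sum_split hs.1 (al n b U) (fun i => xa n b U s i ^ 2)
      (fun i => by rw [hx i, Real.sq_sqrt (hal0 _).le])
    rw [sum_al hU hI] at h2
    linarith
  have hsum0 : 0 ≤ ∑ i ∈ (Finset.range 6).filter (fun i => i ∈ P.gr), xa n b U s i ^ 2 +
      ∑ a : {a : ι // a ∉ Set.range s}, al n b U a.1 :=
    add_nonneg (Finset.sum_nonneg fun _ _ => sq_nonneg _)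
      (Finset.sum_nonneg fun a _ => (hal0 a.1).le)
  have hK3 : ((P.K2 : ℝ) / 100000000) ^ 3 = (P.K2 : ℝ) * P.K2 * P.K2 /
      (100000000 * 100000000 * 100000000) := by
    rw [div_pow]; ring
  refine glue hU hI P c tr hch (by rw [b6, b7]) (by rw [b1]; simp) (by rw [b1]; simp)
    (by rw [b1, b11]; simp) ?_ (fun h hh => (b8 h hh).ge) b12 b13 b14 b6 (by norm_num) s hs.1
    (xa n b U s) hx ?_ hle ?_ ?_ ?_ (fun _ => 0) ?_ ?_ ?_ ?_ ?_ (by norm_num) b3 ?_ ?_
  · intro f hf
    obtain ⟨g, _, hfg⟩ := mem_zip_of_mem P.fams bfs b19 f hf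
    obtain ⟨⟨h1, h2⟩, _⟩ := b20 _ hfg
    rw [h1, h2, b6, b1]
    simp
  · intro i hi
    have h1 : c.lo.getD i 0 = 0 := by
      rw [List.getD_eq_getElem _ _ (by rw [b6]; exact hi)]
      exact b8 _ (List.getElem_mem _)
    rw [h1]
    refine ⟨by have := xa_nonneg (n := n) (b := b) (U := U) s i; push_cast; linarith, ?_⟩
    have h2 : (hiB.getD i 0 : ℝ) ≤ (c.hi.getD i 0 : ℝ) := by exact_mod_cast b9 i hi
    refine le_trans ?_ h2
    have h3 := hx ⟨i, hi⟩
    simp only at h3
    rw [h3]
    have h4 := al_top hU hI hs ⟨i, hi⟩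
    have h5 := al_le hU hI (s ⟨i, hi⟩)
    have h6 : ∀ {B : ℝ} {v : ℝ}, 0 ≤ B → v ≤ (B / 1000) ^ 2 → 1000 * √v ≤ B := by
      intro B v hB hv
      have h7 : √v ≤ B / 1000 := by
        rw [← Real.sqrt_sq (show 0 ≤ B / 1000 by positivity)]
        exact Real.sqrt_le_sqrt hv
      linarith
    interval_cases i
    · apply h6 (by norm_num [hiB])
      refine h5.trans ?_
      norm_num [hiB]
    · apply h6 (by norm_num [hiB])
      refine h5.trans ?_
      norm_num [hiB]
    · apply h6 (by norm_num [hiB])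
      refine h4.trans ?_
      norm_num [hiB]
    · apply h6 (by norm_num [hiB])
      refine h4.trans ?_
      norm_num [hiB]
    · apply h6 (by norm_num [hiB])
      refine h4.trans ?_
      norm_num [hiB]
    · apply h6 (by norm_num [hiB])
      refine h4.trans ?_
      norm_num [hiB]
  · intro a ha
    have h1 := al_other hU hI hs ha (hle a ha)
    have h2 : (378 : ℝ) ≤ c.H := by exact_mod_cast b10
    have h3 : √(al n b U a) ≤ 378 / 1000 := by
      rw [← Real.sqrt_sq (show (0 : ℝ) ≤ 378 / 1000 by norm_num)]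
      apply Real.sqrt_le_sqrt
      refine h1.trans ?_
      norm_num
    linarith
  · intro i hi j hj
    obtain ⟨h1, h2⟩ := b17 i hi j hj
    exact hmono i j h1 h2
  · intro i hi j hj
    exact hmono j i (b18 i hi j hj) hi
  · intro j hj
    rw [b11] at hj
    simp at hj
  · rw [b1]
    simp only [List.length_nil, Finset.range_zero, Finset.sum_empty, mul_zero]
    exact_mod_cast b2
  · have h1 : (c.T1 : ℝ) ≤ 0 := by exact_mod_cast b15
    linarith
  · have h1 : (1000000 : ℝ) ≤ c.T2 := by exact_mod_cast b16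
    linarith
  · intro f hf _
    obtain ⟨g, _, hfg⟩ := mem_zip_of_mem P.fams bfs b19 f hf
    obtain ⟨_, h3⟩ := b20 _ hfg
    have h5 := fam_ineq hU hI hs hJ h3
    rw [b1]
    simp only [List.length_nil, Finset.range_zero, Finset.sum_empty, sub_zero]
    refine le_trans ?_ h5
    have h9 : ∑ a : {a : ι // a ∉ Set.range s}, √(al n b U a.1) = xr n b U s := rfl
    rw [h9]
    simp only [Finset.sum_range_succ, Finset.sum_range_zero]
    apply le_of_eq
    ring
  · rw [hK3, div_le_iff₀ (by norm_num)]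
    exact_mod_cast b4
  · have h1 : (283585600000000000000000000000000000000000000000000 : ℝ) ≤
        36 * 314159265358979323846 * (P.K2 * P.K2 * P.K2) := by exact_mod_cast b5
    have h0 : (0 : ℝ) ≤ (P.K2 : ℝ) * P.K2 * P.K2 := by
      have : (0 : ℝ) ≤ P.K2 := by exact_mod_cast b3
      positivity
    have h2 : (314159265358979323846 : ℝ) / 100000000000000000000 ≤ Real.pi := by
      have := Real.pi_gt_d20
      norm_num at this ⊢
      linarith
    have h4 := mul_le_mul_of_nonneg_right h2 h0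
    rw [hK3]
    rw [div_eq_mul_inv]
    norm_num at h1 h4 ⊢
    linarith

end

end Pool.Agent.Work.MP_3892ce_caseB
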