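import Pool.Agent.Work.MP_3892ce_static.BRBbase

/-! # Melzak, case B: families without convexity of the coefficients (helper17)

The coefficients `C d` are only antitone. The values of a family are checked against all possible
minimal sets of non-adjacent pairs, through the prefix sums. -/

set_option autoImplicit false

open MeasureTheory Set

namespace Pool.Agent.Work.MP_3892ce_caseB

open Pool.Agent.Work.MP_3892ce_static

/-- `C d` is a lower bound for the coefficient of a named facet which has `d` named neighbours -/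
def CA (w : ℝ) (C : ℕ → ℝ) : Prop :=
  (∀ d ≤ 5, ∃ r, 1 / 2 ≤ r ∧ r ≤ w ∧ C d ≤ 2 * √(Wd r (1 / 2) d)) ∧
  (∀ d < 5, C (d + 1) ≤ C d)

/-- the first `m` -/
def tp (m : ℕ) : Finset (Fin 6) := Finset.univ.filter fun a => a.val < m

/-- number of pairs which contain `a` -/
def cntP (P : List (ℕ × ℕ)) (a : ℕ) : ℕ := P.countP fun p => p.1 == a || p.2 == a

/-- checks that all prefix sums of `V` are at most those of the coefficients -/
def vOk (m : ℕ) (C V : List ℤ) (P : List (ℕ × ℕ)) : ℕ → ℤ → Bool
  | 0, _ => true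
  | f + 1, acc =>
    let a := m - (f + 1)
    let acc' := acc + (C.getD (m - 1 - cntP P a) 0 - V.getD a 0)
    decide (0 ≤ acc') && vOk m C V P f acc'

section
variable {ι : Type} [Fintype ι] [DecidableEq ι]

/-- The two-level bound with the named facets `s a`, `a ∈ J`. -/
theorem famA (hTWO : Stmt_TWO) {n : ι → E 3} {b : ι → ℝ} {U : ι → (E 2 →ₗᵢ[ℝ] E 3)}
    (hU : ∀ i, Frame (n i) (U i)) (hI : Irr n b) {s : Fin 6 → ι} (hs : Function.Injective s)
    (J : Finset (Fin 6)) {w : ℝ} {C T : ℕ → ℝ} (hw : w ≤ 1) (hC : CA w C) (hT : TB w T) {K : ℕ}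
    (hK6 : K ≤ 6) (hK : ∀ i, (∀ a ∈ J, i ≠ s a) → BRB.dg n b s J i ≤ K) :
    ∑ a, (if a ∈ J then C (BRB.dg n b s J (s a)) else T K) * ra n b U (s a) +
      T K * rest n b U s ≤ L n b := by
  classical
  set M : Finset ι := J.image s with hM
  have hmem : ∀ a, s a ∈ M ↔ a ∈ J := by
    intro a
    rw [hM, Finset.mem_image]
    constructor
    · rintro ⟨c, hc, hca⟩
      rwa [← hs hca]
    · intro h
      exact ⟨a, h, rfl⟩
  have hdeg : ∀ i, (M.filter fun j => 0 < len n b i j).card = BRB.dg n b s J i := by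
    intro i
    rw [hM, Finset.filter_image, Finset.card_image_of_injective _ hs]
    rfl
  have hd6 : ∀ i, BRB.dg n b s J i ≤ 6 := by
    intro i
    refine (Finset.card_filter_le _ _).trans ?_
    exact (Finset.card_le_univ J).trans (by simp)
  have hd5 : ∀ i ∈ M, BRB.dg n b s J i ≤ 5 := by
    intro i hi
    rw [hM, Finset.mem_image] at hi
    obtain ⟨c, hc, rfl⟩ := hi
    have h1 : (J.filter fun a => 0 < len n b (s c) (s a)) ⊆ Finset.univ.erase c := by
      intro a ha
      rw [Finset.mem_filter] at ha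
      refine Finset.mem_erase.2 ⟨?_, Finset.mem_univ _⟩
      rintro rfl
      rw [BRB.len_self] at ha
      exact lt_irrefl _ ha.2
    refine (Finset.card_le_card h1).trans ?_
    rw [Finset.card_erase_of_mem (Finset.mem_univ _)]
    simp
  have hTanti : ∀ k ≤ 6, ∀ m, m ≤ k → T k ≤ T m := by
    intro k hk m hmk
    induction k with
    | zero =>
      have : m = 0 := by omega
      rw [this]
    | succ k ih =>
      rcases Nat.lt_or_ge m (k + 1) with h | h
      · exact (hT.2.1 k (by omega)).trans (ih (by omega) (by omega))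
      · have : m = k + 1 := by omega
        rw [this]
  choose rC hrC using hC.1
  choose rT hrT using hT.1
  obtain ⟨r, hr⟩ : ∃ r : ι → ℝ, r = fun i => if h : i ∈ M then rC (BRB.dg n b s J i) (hd5 i h) else
    rT (BRB.dg n b s J i) (hd6 i) := ⟨_, rfl⟩
  have h2 := hTWO ι n b U hU hI M w r hw (by
    intro i hi
    have := hrC (BRB.dg n b s J i) (hd5 i hi)
    rw [hr]
    simp only [dif_pos hi]
    exact ⟨this.1, this.2.1⟩) (by
    intro i hi
    have := hrT (BRB.dg n b s J i) (hd6 i)
    rw [hr]
    simp only [dif_neg hi]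
    exact ⟨this.1, this.2.1, this.2.2.1⟩)
  refine le_trans ?_ h2
  have hterm : ∀ i, (if i ∈ M then C (BRB.dg n b s J i) else T (BRB.dg n b s J i)) * ra n b U i ≤
      2 * √(area (HP n b) (n i) (U i) (b i) * Wd (r i) (if i ∈ M then 1 / 2 else 1 - w)
        (M.filter (fun j => 0 < len n b i j)).card) := by
    intro i
    rw [hdeg, Real.sqrt_mul (by unfold area; exact ENNReal.toReal_nonneg)]
    have hra : 0 ≤ ra n b U i := Real.sqrt_nonneg _
    have hra' : ra n b U i = √(area (HP n b) (n i) (U i) (b i)) := rfl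
    rw [← hra']
    by_cases hi : i ∈ M
    · have h3 := (hrC (BRB.dg n b s J i) (hd5 i hi)).2.2
      rw [hr]
      simp only [if_pos hi, dif_pos hi]
      nlinarith
    · have h3 := (hrT (BRB.dg n b s J i) (hd6 i)).2.2.2
      rw [hr]
      simp only [if_neg hi, dif_neg hi]
      nlinarith
  refine le_trans ?_ (Finset.sum_le_sum fun i _ => hterm i)
  rw [← Finset.sum_add_sum_compl (Finset.univ.image s)
    (fun i => (if i ∈ M then C (BRB.dg n b s J i) else T (BRB.dg n b s J i)) * ra n b U i)]
  refine add_le_add ?_ ?_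
  · rw [Finset.sum_image fun a _ c _ h => hs h]
    refine Finset.sum_le_sum fun a _ => ?_
    by_cases ha : a ∈ J
    · rw [if_pos ha, if_pos ((hmem a).2 ha)]
    · rw [if_neg ha, if_neg fun h => ha ((hmem a).1 h)]
      refine mul_le_mul_of_nonneg_right (hTanti K hK6 _ (hK _ ?_)) (Real.sqrt_nonneg _)
      intro c hc h
      exact ha (by rwa [hs h])
  · unfold rest
    rw [Finset.mul_sum]
    have hfe : (Finset.univ.filter fun i => i ∉ Finset.univ.image s) = (Finset.univ.image s)ᶜ := by
      ext i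
      simp
    rw [hfe]
    refine Finset.sum_le_sum fun i hi => ?_
    rw [Finset.mem_compl, Finset.mem_image] at hi
    push Not at hi
    have hne : ∀ a, i ≠ s a := fun a h => hi a (Finset.mem_univ _) h.symm
    have hiM : i ∉ M := by
      rw [hM, Finset.mem_image]
      rintro ⟨c, _, hc⟩
      exact hne c hc.symm
    rw [if_neg hiM]
    have hra : 0 ≤ ra n b U i := Real.sqrt_nonneg _
    exact mul_le_mul_of_nonneg_right (hTanti K hK6 _ (hK i fun a _ => hne a)) hra

/-- the degree of a named facet -/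
lemma dg_cnt {n : ι → E 3} {b : ι → ℝ} {s : Fin 6 → ι} {m : ℕ} (hm : m ≤ 6)
    {P : List (ℕ × ℕ)} (hnd : P.Nodup) (hP : ∀ p ∈ P, p.1 < p.2 ∧ p.2 < m ∧
      ∀ (i j : Fin 6), i.val = p.1 → j.val = p.2 → ¬ 0 < len n b (s i) (s j)) {a : Fin 6}
    (ha : a.val < m) : BRB.dg n b s (tp m) (s a) + cntP P a ≤ m - 1 := by
  classical
  set Q := P.filter fun p => p.1 == a.val || p.2 == a.val with hQ
  have hcnt : cntP P a = Q.length := by
    rw [hQ, ← List.countP_eq_length_filter]
    rfl
  have hQm : ∀ p ∈ Q, (p.1 = a.val ∨ p.2 = a.val) ∧ p ∈ P := by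
    intro p hp
    rw [hQ, List.mem_filter] at hp
    refine ⟨?_, hp.1⟩
    have := hp.2
    simpa using this
  -- the other end
  set o : ℕ × ℕ → ℕ := fun p => p.1 + p.2 - a.val with ho
  have hoa : ∀ p ∈ Q, o p < m ∧ o p ≠ a.val ∧
      ((p.1 = a.val ∧ p.2 = o p) ∨ (p.1 = o p ∧ p.2 = a.val)) := by
    intro p hp
    obtain ⟨h1, h2⟩ := hQm p hp
    obtain ⟨h3, h4, _⟩ := hP p h2
    simp only [ho]
    rcases h1 with h1 | h1
    · refine ⟨by omega, by omega, Or.inl ⟨h1, by omega⟩⟩
    · refine ⟨by omega, by omega, Or.inr ⟨by omega, h1⟩⟩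
  have hinj : ∀ p ∈ Q, ∀ q ∈ Q, o p = o q → p = q := by
    intro p hp q hq hpq
    obtain ⟨h1, h2, h3⟩ := hoa p hp
    obtain ⟨g1, g2, g3⟩ := hoa q hq
    have hp2 := (hP p (hQm p hp).2).1
    have hq2 := (hP q (hQm q hq).2).1
    apply Prod.ext <;> rcases h3 with h3 | h3 <;> rcases g3 with g3 | g3 <;> omega
  set F : Finset (Fin 6) := (Q.toFinset.attach).image fun p =>
    (⟨o p.1, lt_of_lt_of_le (hoa p.1 (List.mem_toFinset.1 p.2)).1 hm⟩ : Fin 6) with hF
  have hFcard : F.card = Q.length := by
    rw [hF, Finset.card_image_of_injective, Finset.card_attach,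
      List.toFinset_card_of_nodup (hnd.filter _)]
    intro p q hpq
    have h1 := congrArg Fin.val hpq
    exact Subtype.ext (hinj _ (List.mem_toFinset.1 p.2) _ (List.mem_toFinset.1 q.2) h1)
  have hsub : ((tp m).filter fun c => 0 < len n b (s a) (s c)) ⊆ ((tp m).erase a) \ F := by
    intro c hc
    rw [Finset.mem_filter] at hc
    rw [Finset.mem_sdiff, Finset.mem_erase]
    refine ⟨⟨?_, hc.1⟩, ?_⟩
    · rintro rfl
      have h2 := hc.2
      rw [BRB.len_self] at h2
      exact lt_irrefl _ h2
    · intro hcF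
      rw [hF, Finset.mem_image] at hcF
      obtain ⟨⟨p, hp⟩, _, hpc⟩ := hcF
      have hp' := List.mem_toFinset.1 hp
      have h1 := congrArg Fin.val hpc
      simp only at h1
      obtain ⟨_, _, h3⟩ := hoa p hp'
      obtain ⟨_, _, h4⟩ := hP p (hQm p hp').2
      rcases h3 with h3 | h3
      · exact h4 a c h3.1.symm (by omega) hc.2
      · refine h4 c a (by omega) h3.2.symm ?_
        rw [BRB.len_symm]
        exact hc.2
  have hFsub : F ⊆ (tp m).erase a := by
    intro c hc
    rw [hF, Finset.mem_image] at hc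
    obtain ⟨⟨p, hp⟩, _, hpc⟩ := hc
    have hp' := List.mem_toFinset.1 hp
    have h1 := congrArg Fin.val hpc
    simp only at h1
    obtain ⟨h2, h3, _⟩ := hoa p hp'
    rw [Finset.mem_erase]
    refine ⟨?_, ?_⟩
    · rintro rfl
      exact h3 h1
    · simp only [tp, Finset.mem_filter, Finset.mem_univ, true_and]
      omega
  have hcard := Finset.card_le_card hsub
  rw [Finset.card_sdiff_of_subset hFsub, Finset.card_erase_of_mem (by
    simp only [tp, Finset.mem_filter, Finset.mem_univ, true_and]
    exact ha), hFcard] at hcard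
  have htp : (tp m).card = m := by
    have h6 : ∀ k ≤ 6, (tp k).card = k := by
      intro k hk
      interval_cases k <;> decide
    exact h6 m hm
  have hle := Finset.card_le_card hFsub
  rw [hFcard, Finset.card_erase_of_mem (by
    simp only [tp, Finset.mem_filter, Finset.mem_univ, true_and]
    exact ha), htp] at hle
  rw [htp] at hcard
  rw [hcnt]
  unfold BRB.dg
  omega

end

/-- the real sequence of a list -/
noncomputable def sq2 (C : List ℤ) : ℕ → ℝ := fun d => (C.getD d 0 : ℝ) / 100000

lemma vOk_spec {m : ℕ} {C V : List ℤ} {P : List (ℕ × ℕ)} : ∀ (f : ℕ) (acc : ℤ), f ≤ m →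
    vOk m C V P f acc = true → ∀ k, m - f ≤ k → k < m →
    0 ≤ acc + ∑ a ∈ Finset.Ico (m - f) (k + 1), (C.getD (m - 1 - cntP P a) 0 - V.getD a 0) := by
  intro f
  induction f with
  | zero => intro acc _ _ k h1 h2; omega
  | succ f ih =>
    intro acc hf h k h1 h2
    simp only [vOk, Bool.and_eq_true, decide_eq_true_eq] at h
    obtain ⟨h3, h4⟩ := h
    rw [Finset.sum_eq_sum_Ico_succ_bot (by omega)]
    rcases Nat.lt_or_ge k (m - f) with h5 | h5
    · have h6 : m - (f + 1) + 1 = m - f := by omega
      rw [h6, Finset.Ico_eq_empty (by omega), Finset.sum_empty]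
      linarith
    · have h6 : m - (f + 1) + 1 = m - f := by omega
      have h7 := ih _ (by omega) h4 k h5 h2
      rw [h6]
      linarith

/-- prefix sums as a statement about reals -/
lemma vOk_real {m : ℕ} {C V : List ℤ} {P : List (ℕ × ℕ)} (h : vOk m C V P m 0 = true) (k : ℕ)
    (hk : k < m) : ∑ a ∈ Finset.range (k + 1), sq2 V a ≤
      ∑ a ∈ Finset.range (k + 1), sq2 C (m - 1 - cntP P a) := by
  have h1 := vOk_spec m 0 le_rfl h k (by omega) hk
  rw [Nat.sub_self, zero_add, ← Finset.range_eq_Ico, Finset.sum_sub_distrib] at h1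
  unfold sq2
  rw [← Finset.sum_div, ← Finset.sum_div]
  apply div_le_div_of_nonneg_right _ (by norm_num)
  have h2 : ∑ a ∈ Finset.range (k + 1), V.getD a 0 ≤
      ∑ a ∈ Finset.range (k + 1), C.getD (m - 1 - cntP P a) 0 := by linarith
  exact_mod_cast h2

section
variable {ι : Type} [Fintype ι] [DecidableEq ι]

/-- the inequality of a family with `m` named facets and the missing pairs `P` -/
theorem famV (hTWO : Stmt_TWO) {n : ι → E 3} {b : ι → ℝ} {U : ι → (E 2 →ₗᵢ[ℝ] E 3)}
    (hU : ∀ i, Frame (n i) (U i)) (hI : Irr n b) {s : Fin 6 → ι} (hs : Six n b U s)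
    {w : ℝ} {T : ℕ → ℝ} {C V : List ℤ} (hw : w ≤ 1) (hC : CA w (sq2 C)) (hT : TB w T)
    {m K : ℕ} (hm : m ≤ 6) (hK6 : K ≤ 6)
    (hK : ∀ i, (∀ a ∈ tp m, i ≠ s a) → BRB.dg n b s (tp m) i ≤ K)
    {P : List (ℕ × ℕ)} (hnd : P.Nodup) (hP : ∀ p ∈ P, p.1 < p.2 ∧ p.2 < m ∧
      ∀ (i j : Fin 6), i.val = p.1 → j.val = p.2 → ¬ 0 < len n b (s i) (s j))
    (hv : vOk m C V P m 0 = true) :
    (if 0 < m then sq2 V 0 else T K) * ra n b U (s 0) +
    (if 1 < m then sq2 V 1 else T K) * ra n b U (s 1) +
    (if 2 < m then sq2 V 2 else T K) * ra n b U (s 2) +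
    (if 3 < m then sq2 V 3 else T K) * ra n b U (s 3) +
    (if 4 < m then sq2 V 4 else T K) * ra n b U (s 4) +
    (if 5 < m then sq2 V 5 else T K) * ra n b U (s 5) + T K * rest n b U s ≤ L n b := by
  have h := famA hTWO hU hI hs.1 (tp m) hw hC hT hK6 hK
  rw [Fin.sum_univ_six] at h
  have hmem : ∀ a : Fin 6, a ∈ tp m ↔ a.val < m := by
    intro a
    simp [tp]
  have hCanti : ∀ k ≤ 5, ∀ l, l ≤ k → sq2 C k ≤ sq2 C l := by
    intro k hk l hlk
    induction k with
    | zero =>
      have : l = 0 := by omega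
      rw [this]
    | succ k ih =>
      rcases Nat.lt_or_ge l (k + 1) with h | h
      · exact (hC.2 k (by omega)).trans (ih (by omega) (by omega))
      · have : l = k + 1 := by omega
        rw [this]
  have hpt : ∀ a : Fin 6, a.val < m → sq2 C (m - 1 - cntP P a) ≤
      sq2 C (BRB.dg n b s (tp m) (s a)) := by
    intro a ha
    have h1 := dg_cnt hm hnd hP ha
    exact hCanti _ (by omega) _ (by omega)
  have x5 := BRB.ra_nonneg n b U (s 5)
  have y01 := BRB.ra_anti hs (show (0 : Fin 6) ≤ 1 by decide)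
  have y12 := BRB.ra_anti hs (show (1 : Fin 6) ≤ 2 by decide)
  have y23 := BRB.ra_anti hs (show (2 : Fin 6) ≤ 3 by decide)
  have y34 := BRB.ra_anti hs (show (3 : Fin 6) ≤ 4 by decide)
  have y45 := BRB.ra_anti hs (show (4 : Fin 6) ≤ 5 by decide)
  set c : Fin 6 → ℝ := fun a => if a.val < m then sq2 C (BRB.dg n b s (tp m) (s a)) else 0 with hc
  set v : Fin 6 → ℝ := fun a => if a.val < m then sq2 V a.val else 0 with hv'
  have hpre : ∀ k : ℕ, ∀ hk : k < 6, ∑ a ∈ Finset.univ.filter (fun a : Fin 6 => a.val ≤ k), v a ≤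
      ∑ a ∈ Finset.univ.filter (fun a : Fin 6 => a.val ≤ k), c a := by
    intro k hk
    -- reduce to ranges
    have e1 : ∀ g : ℕ → ℝ, ∑ a ∈ Finset.univ.filter (fun a : Fin 6 => a.val ≤ k), g a.val =
        ∑ a ∈ Finset.range (k + 1), g a := by
      intro g
      symm
      refine Finset.sum_bij' (fun a ha => (⟨a, by rw [Finset.mem_range] at ha; omega⟩ : Fin 6))
        (fun a _ => a.val) ?_ ?_ ?_ ?_ ?_
      · intro a ha
        rw [Finset.mem_range] at ha
        simp only [Finset.mem_filter, Finset.mem_univ, true_and]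
        omega
      · intro a ha
        simp only [Finset.mem_filter, Finset.mem_univ, true_and] at ha
        rw [Finset.mem_range]
        omega
      · intro a _
        rfl
      · intro a _
        rfl
      · intro a _
        rfl
    rcases Nat.eq_zero_or_pos m with hm0 | hm0
    · apply le_of_eq
      apply Finset.sum_congr rfl
      intro a _
      simp only [hc, hv']
      rw [if_neg (by omega), if_neg (by omega)]
    · have e2 : ∀ g : ℕ → ℝ, ∑ a ∈ Finset.range (k + 1), (if a < m then g a else 0) =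
          ∑ a ∈ Finset.range (min k (m - 1) + 1), g a := by
        intro g
        rw [← Finset.sum_filter]
        congr 1
        ext a
        simp only [Finset.mem_filter, Finset.mem_range]
        omega
      have h1 := vOk_real hv (min k (m - 1)) (by omega)
      rw [← e2 (fun a => sq2 V a), ← e2 (fun a => sq2 C (m - 1 - cntP P a)), ← e1, ← e1] at h1
      refine le_trans h1 ?_
      apply Finset.sum_le_sum
      intro a _
      simp only [hc]
      by_cases ha : a.val < m
      · rw [if_pos ha, if_pos ha]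
        exact hpt a ha
      · rw [if_neg ha, if_neg ha]
  have f0 : Finset.univ.filter (fun a : Fin 6 => a.val ≤ 0) = {0} := by decide
  have f1 : Finset.univ.filter (fun a : Fin 6 => a.val ≤ 1) = {0, 1} := by decide
  have f2 : Finset.univ.filter (fun a : Fin 6 => a.val ≤ 2) = {0, 1, 2} := by decide
  have f3 : Finset.univ.filter (fun a : Fin 6 => a.val ≤ 3) = {0, 1, 2, 3} := by decide
  have f4 : Finset.univ.filter (fun a : Fin 6 => a.val ≤ 4) = {0, 1, 2, 3, 4} := by decide
  have f5 : Finset.univ.filter (fun a : Fin 6 => a.val ≤ 5) = {0, 1, 2, 3, 4, 5} := by decide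
  have g0 := hpre 0 (by norm_num)
  have g1 := hpre 1 (by norm_num)
  have g2 := hpre 2 (by norm_num)
  have g3 := hpre 3 (by norm_num)
  have g4 := hpre 4 (by norm_num)
  have g5 := hpre 5 (by norm_num)
  rw [f0, Finset.sum_singleton, Finset.sum_singleton] at g0
  rw [f1, Finset.sum_insert (by decide), Finset.sum_insert (by decide), Finset.sum_singleton,
    Finset.sum_singleton] at g1
  rw [f2, Finset.sum_insert (by decide), Finset.sum_insert (by decide),
    Finset.sum_insert (by decide), Finset.sum_insert (by decide), Finset.sum_singleton,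
    Finset.sum_singleton] at g2
  rw [f3, Finset.sum_insert (by decide), Finset.sum_insert (by decide),
    Finset.sum_insert (by decide), Finset.sum_insert (by decide),
    Finset.sum_insert (by decide), Finset.sum_insert (by decide), Finset.sum_singleton,
    Finset.sum_singleton] at g3
  rw [f4, Finset.sum_insert (by decide), Finset.sum_insert (by decide),
    Finset.sum_insert (by decide), Finset.sum_insert (by decide),
    Finset.sum_insert (by decide), Finset.sum_insert (by decide),
    Finset.sum_insert (by decide), Finset.sum_insert (by decide), Finset.sum_singleton,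
    Finset.sum_singleton] at g4
  rw [f5, Finset.sum_insert (by decide), Finset.sum_insert (by decide),
    Finset.sum_insert (by decide), Finset.sum_insert (by decide),
    Finset.sum_insert (by decide), Finset.sum_insert (by decide),
    Finset.sum_insert (by decide), Finset.sum_insert (by decide),
    Finset.sum_insert (by decide), Finset.sum_insert (by decide), Finset.sum_singleton,
    Finset.sum_singleton] at g5
  have key := BRB.abel (c0 := c 0) (c1 := c 1) (c2 := c 2) (c3 := c 3) (c4 := c 4) (c5 := c 5)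
    (d0 := v 0) (d1 := v 1) (d2 := v 2) (d3 := v 3) (d4 := v 4) (d5 := v 5)
    x5 y45 y34 y23 y12 y01 g0 (by linarith only [g1]) (by linarith only [g2])
    (by linarith only [g3]) (by linarith only [g4]) (by linarith only [g5])
  have hadd : ∀ a : Fin 6, ∀ X : ℝ, (if a ∈ tp m then sq2 C (BRB.dg n b s (tp m) (s a)) else T K) * X
      = c a * X + (if a.val < m then 0 else T K) * X := by
    intro a X
    simp only [hc, hmem]
    split_ifs <;> ring
  have hadd' : ∀ a : Fin 6, ∀ X : ℝ, (if a.val < m then sq2 V a.val else T K) * X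
      = v a * X + (if a.val < m then 0 else T K) * X := by
    intro a X
    simp only [hv']
    split_ifs <;> ring
  rw [hadd, hadd, hadd, hadd, hadd, hadd] at h
  have k0 := hadd' 0 (ra n b U (s 0))
  have k1 := hadd' 1 (ra n b U (s 1))
  have k2 := hadd' 2 (ra n b U (s 2))
  have k3 := hadd' 3 (ra n b U (s 3))
  have k4 := hadd' 4 (ra n b U (s 4))
  have k5 := hadd' 5 (ra n b U (s 5))
  have w0 : ((0 : Fin 6) : ℕ) = 0 := rfl
  have w1 : ((1 : Fin 6) : ℕ) = 1 := rfl
  have w2 : ((2 : Fin 6) : ℕ) = 2 := rfl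
  have w3 : ((3 : Fin 6) : ℕ) = 3 := rfl
  have w4 : ((4 : Fin 6) : ℕ) = 4 := rfl
  have w5 : ((5 : Fin 6) : ℕ) = 5 := rfl
  rw [w0] at k0
  rw [w1] at k1
  rw [w2] at k2
  rw [w3] at k3
  rw [w4] at k4
  rw [w5] at k5
  rw [k0, k1, k2, k3, k4, k5]
  rw [w0, w1, w2, w3, w4, w5] at h
  refine le_trans ?_ h
  linarith only [key]

end

end Pool.Agent.Work.MP_3892ce_caseB
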