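import Pool.Agent.Work.MP_3892ce_caseB.CaseB
import Pool.Agent.Work.MP_3892ce_str.Core

/-! # Melzak, case B: `Stmt_S2 1684` from the two certificates (helper17) -/

set_option autoImplicit false

open MeasureTheory Set

namespace Pool.Agent.Work.MP_3892ce_caseB

open Pool.Agent.Work.MP_3892ce_static Pool.Agent.Work.MP_3892ce_str

/-- `Stmt_S2 1684` from the two certificates -/
theorem S2_of_certs {P1 P2 : Eng.Prob} {c1 c2 : Eng.Cell} {t1 t2 : Eng.Tree} {f1 f2 : List BF}
    (h1 : Eng.check P1 c1 t1 = true) (h1' : bOk true P1 c1 f1 = true)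
    (h2 : Eng.check P2 c2 t2 = true) (h2' : bOk false P2 c2 f2 = true) : Stmt_S2 1684 := by
  intro ι _ _ n b U hU hI hcard s hs hrest hp
  obtain ⟨r, hr, hrr, hcase⟩ := blk_SIX ι n b U hI (by omega) s hs hrest hp
  rcases hcase with h | h
  · exact caseB (J1 := true) h1 h1' hU hI hr hrr (by rw [if_pos rfl]; exact h)
  · exact caseB (J1 := false) h2 h2' hU hI hr hrr (by rw [if_neg (by simp)]; exact h)

end Pool.Agent.Work.MP_3892ce_caseB
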